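import Pool.Agent.H51.OVO.Own

/-! The classification of ovoids of `PG(3,q)`. -/

set_option autoImplicit false

namespace Pool.Agent.Results.MP_c637b9_co.OvoidClassification

/-- Let `F` be a finite field with `q` elements and let `S` be an ovoid of `PG(3,F)`: `q² + 1`
points, no three of them on a line (if `q = 2`: no four of them in a plane). Then either `S` is an
elliptic quadric, that is the zero set of a quadratic form whose polar form has no radical and which
does not vanish on any line, or `q = 2^(2e+1)` with `e ≥ 1` and `S` is the image of the Tits ovoid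
under a linear automorphism `A` of `F⁴`. -/
theorem result (F : Type) [Field F] [Fintype F] (S : Set (Projectivization F (Fin 4 → F)))
    (hS : S.ncard = Fintype.card F ^ 2 + 1)
    (h3 : Fintype.card F ≠ 2 →
      ∀ f : Fin 3 → Projectivization F (Fin 4 → F), Function.Injective f →
        (∀ i, f i ∈ S) → LinearIndependent F (fun i => (f i).rep))
    (h4 : Fintype.card F = 2 →
      ∀ f : Fin 4 → Projectivization F (Fin 4 → F), Function.Injective f →
        (∀ i, f i ∈ S) → LinearIndependent F (fun i => (f i).rep)) :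
    (∃ Q : QuadraticForm F (Fin 4 → F),
      (∀ x, (∀ y, QuadraticMap.polar Q x y = 0) → x = 0) ∧
      (∀ x y : Fin 4 → F, LinearIndependent F ![x, y] → ∃ a b : F, Q (a • x + b • y) ≠ 0) ∧
      ∀ p, p ∈ S ↔ Q p.rep = 0) ∨
    (∃ e : ℕ, 1 ≤ e ∧ Fintype.card F = 2 ^ (2 * e + 1) ∧
      ∃ A : (Fin 4 → F) ≃ₗ[F] (Fin 4 → F), ∀ p, p ∈ S ↔
        ((∃ s t c : F,
            A ![1, s, t, s ^ (2 ^ (e + 1)) + s * t + t ^ (2 ^ (e + 1) + 2)] = c • p.rep) ∨
         ∃ c : F, A ![0, 0, 0, 1] = c • p.rep)) :=
  Pool.Agent.H51.OVO.own F S hS h3 h4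

end Pool.Agent.Results.MP_c637b9_co.OvoidClassification
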